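import Mathlib
set_option autoImplicit false
open Finset

namespace Pool.Agent.Y189.BA

open scoped Classical in
/-- signed sum attached to a subset `s` of `t` -/
noncomputable def rad {ι : Type} (t : Finset ι) (c : ι → ℂ) (s : Finset ι) : ℂ :=
  ∑ i ∈ t, (if i ∈ s then 1 else -1) * c i

section
variable {ι : Type}

open scoped Classical in
lemma rad_insert_insert {t s : Finset ι} {a : ι} (ha : a ∉ t) (c : ι → ℂ) :
    rad (insert a t) c (insert a s) = rad t c s + c a := by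
  unfold rad
  rw [sum_insert ha, add_comm]
  congr 1
  · refine sum_congr rfl fun i hi => ?_
    have : i ≠ a := fun h => ha (h ▸ hi)
    simp [this]
  · simp

open scoped Classical in
lemma rad_insert_of_subset {t s : Finset ι} {a : ι} (ha : a ∉ t) (hs : s ⊆ t) (c : ι → ℂ) :
    rad (insert a t) c s = rad t c s - c a := by
  unfold rad
  rw [sum_insert ha, add_comm]
  have : a ∉ s := fun h => ha (hs h)
  simp [this, sub_eq_add_neg]

lemma rad_mul (t : Finset ι) (c d : ι → ℂ) :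
    ∑ s ∈ t.powerset, rad t c s * rad t d s = 2 ^ t.card * ∑ i ∈ t, c i * d i := by
  classical
  induction t using Finset.induction_on with
  | empty => simp [rad]
  | insert a t ha ih =>
    rw [sum_powerset_insert ha, ← sum_add_distrib, card_insert_of_notMem ha, sum_insert ha]
    have : ∀ s ∈ t.powerset, rad (insert a t) c s * rad (insert a t) d s
        + rad (insert a t) c (insert a s) * rad (insert a t) d (insert a s)
        = 2 * (rad t c s * rad t d s) + 2 * (c a * d a) := by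
      intro s hs
      rw [rad_insert_insert ha, rad_insert_insert ha, rad_insert_of_subset ha (mem_powerset.1 hs),
        rad_insert_of_subset ha (mem_powerset.1 hs)]
      ring
    rw [sum_congr rfl this, sum_add_distrib, ← mul_sum, ih]
    simp only [sum_const, card_powerset, nsmul_eq_mul]
    push_cast
    ring

lemma sq_pair (z c : ℂ) : ‖z - c‖^2 + ‖z + c‖^2 = 2 * ‖z‖^2 + 2 * ‖c‖^2 := by
  have := parallelogram_law_with_norm ℝ z c
  nlinarith

lemma four_pair (z c : ℂ) :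
    ‖z - c‖^4 + ‖z + c‖^4 ≤ 2 * ‖z‖^4 + 12 * ‖z‖^2 * ‖c‖^2 + 2 * ‖c‖^4 := by
  have h1 : ‖z + c‖^2 = ‖z‖^2 + 2 * (z.re * c.re + z.im * c.im) + ‖c‖^2 := by
    rw [← Complex.normSq_eq_norm_sq, ← Complex.normSq_eq_norm_sq, ← Complex.normSq_eq_norm_sq]
    simp [Complex.normSq_apply]; ring
  have h2 : ‖z - c‖^2 = ‖z‖^2 - 2 * (z.re * c.re + z.im * c.im) + ‖c‖^2 := by
    rw [← Complex.normSq_eq_norm_sq, ← Complex.normSq_eq_norm_sq, ← Complex.normSq_eq_norm_sq]
    simp [Complex.normSq_apply]; ring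
  have h3 : (z.re * c.re + z.im * c.im)^2 ≤ ‖z‖^2 * ‖c‖^2 := by
    rw [← Complex.normSq_eq_norm_sq, ← Complex.normSq_eq_norm_sq]
    simp only [Complex.normSq_apply]
    nlinarith [sq_nonneg (z.re * c.im - z.im * c.re)]
  have e1 : ‖z + c‖^4 = (‖z + c‖^2)^2 := by ring
  have e2 : ‖z - c‖^4 = (‖z - c‖^2)^2 := by ring
  rw [e1, e2, h1, h2]
  nlinarith

lemma second_moment (t : Finset ι) (c : ι → ℂ) :
    ∑ s ∈ t.powerset, ‖rad t c s‖^2 = 2 ^ t.card * ∑ i ∈ t, ‖c i‖^2 := by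
  classical
  induction t using Finset.induction_on with
  | empty => simp [rad]
  | insert a t ha ih =>
    rw [sum_powerset_insert ha, ← sum_add_distrib, card_insert_of_notMem ha, sum_insert ha]
    have : ∀ s ∈ t.powerset, ‖rad (insert a t) c s‖^2 + ‖rad (insert a t) c (insert a s)‖^2
        = 2 * ‖rad t c s‖^2 + 2 * ‖c a‖^2 := by
      intro s hs
      rw [rad_insert_insert ha, rad_insert_of_subset ha (mem_powerset.1 hs)]
      exact sq_pair _ _
    rw [sum_congr rfl this, sum_add_distrib, ← mul_sum, ih]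
    simp only [sum_const, card_powerset, nsmul_eq_mul]
    push_cast
    ring

lemma fourth_moment (t : Finset ι) (c : ι → ℂ) :
    ∑ s ∈ t.powerset, ‖rad t c s‖^4 ≤ 3 * 2 ^ t.card * (∑ i ∈ t, ‖c i‖^2)^2 := by
  classical
  induction t using Finset.induction_on with
  | empty => simp [rad]
  | insert a t ha ih =>
    rw [sum_powerset_insert ha, ← sum_add_distrib, card_insert_of_notMem ha, sum_insert ha]
    have : ∀ s ∈ t.powerset, ‖rad (insert a t) c s‖^4 + ‖rad (insert a t) c (insert a s)‖^4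
        ≤ 2 * ‖rad t c s‖^4 + 12 * ‖c a‖^2 * ‖rad t c s‖^2 + 2 * ‖c a‖^4 := by
      intro s hs
      rw [rad_insert_insert ha, rad_insert_of_subset ha (mem_powerset.1 hs)]
      have := four_pair (rad t c s) (c a)
      linarith
    refine (sum_le_sum this).trans ?_
    rw [sum_add_distrib, sum_add_distrib, ← mul_sum, ← mul_sum, second_moment]
    simp only [sum_const, card_powerset, nsmul_eq_mul]
    push_cast
    have hp : (0:ℝ) < 2 ^ t.card := by positivity
    have hS : 0 ≤ ∑ i ∈ t, ‖c i‖^2 := sum_nonneg (fun _ _ => by positivity)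
    set S := ∑ i ∈ t, ‖c i‖^2
    rw [show (2:ℝ)^(t.card+1) = 2 * 2 ^ t.card by ring]
    set P : ℝ := 2 ^ t.card
    nlinarith [mul_nonneg hp.le (by positivity : (0:ℝ) ≤ ‖c a‖^4)]

end

/-- truncation -/
noncomputable def tr (z : ℂ) : ℂ := if ‖z‖ ≤ 8 then z else 0

lemma norm_tr_le (z : ℂ) : ‖tr z‖ ≤ 8 := by
  unfold tr; split_ifs with h
  · exact h
  · simp

lemma norm_tr_le' (z : ℂ) : ‖tr z‖ ≤ ‖z‖ := by
  unfold tr; split_ifs with h
  · exact le_rfl
  · simp

lemma norm_sub_tr (z : ℂ) : 64 * ‖z - tr z‖ ^ 2 ≤ ‖z‖ ^ 4 := by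
  unfold tr; split_ifs with h
  · simp
  · rw [sub_zero]
    push Not at h
    have h0 : 0 ≤ ‖z‖ := norm_nonneg z
    have : (64 : ℝ) ≤ ‖z‖ ^ 2 := by nlinarith
    nlinarith [sq_nonneg ‖z‖]

/-- bound on the unit balls, for the section of size `M` -/
def IB (M : ℕ) (γ : ℕ → ℕ → ℂ) (B : ℝ) : Prop :=
  ∀ (x y : ℕ → ℂ), (∀ m, ‖x m‖ ≤ 1) → (∀ k, ‖y k‖ ≤ 1) →
    ‖∑ m ∈ range M, ∑ k ∈ range M, γ m k * x m * y k‖ ≤ B

/-- bound for vectors in Hilbert spaces -/
def GT (M : ℕ) (γ : ℕ → ℕ → ℂ) (K : ℝ) : Prop :=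
  ∀ (ι : Type) (t : Finset ι) (u v : ℕ → ι → ℂ), (∀ m, ∑ i ∈ t, ‖u m i‖ ^ 2 ≤ 1) →
    (∀ k, ∑ i ∈ t, ‖v k i‖ ^ 2 ≤ 1) →
    ‖∑ m ∈ range M, ∑ k ∈ range M, γ m k * ∑ i ∈ t, u m i * v k i‖ ≤ K

lemma GT_trivial (M : ℕ) (γ : ℕ → ℕ → ℂ) : GT M γ (∑ m ∈ range M, ∑ k ∈ range M, ‖γ m k‖) := by
  intro ι t u v hu hv
  refine (norm_sum_le _ _).trans (sum_le_sum fun m _ => ?_)
  refine (norm_sum_le _ _).trans (sum_le_sum fun k _ => ?_)
  rw [norm_mul]
  refine mul_le_of_le_one_right (norm_nonneg _) ?_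
  refine (norm_sum_le _ _).trans ?_
  have : ∀ i ∈ t, ‖u m i * v k i‖ ≤ (1/2) * (‖u m i‖^2) + (1/2) * ‖v k i‖^2 := by
    intro i _
    rw [norm_mul]
    nlinarith [sq_nonneg (‖u m i‖ - ‖v k i‖)]
  refine (sum_le_sum this).trans ?_
  rw [sum_add_distrib, ← mul_sum, ← mul_sum]
  linarith [hu m, hv k]

lemma GT_step {M : ℕ} {γ : ℕ → ℕ → ℂ} {B K : ℝ} (hB : IB M γ B) (hK : GT M γ K) :
    GT M γ (64 * B + K / 2) := by
  intro ι t u v hu hv
  set N : ℝ := 2 ^ t.card with hN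
  have hNpos : 0 < N := by positivity
  have hNc : (N : ℂ) ≠ 0 := by exact_mod_cast hNpos.ne'
  set r : ℝ := Real.sqrt N with hr
  have hr2 : r ^ 2 = N := Real.sq_sqrt hNpos.le
  have hrpos : 0 < r := Real.sqrt_pos.2 hNpos
  have hrc : (r : ℂ) ≠ 0 := by exact_mod_cast hrpos.ne'
  have hrc2 : (r : ℂ) ^ 2 = N := by exact_mod_cast hr2
  set X : ℕ → Finset ι → ℂ := fun m s => rad t (u m) s with hX
  set Y : ℕ → Finset ι → ℂ := fun m s => rad t (v m) s with hY
  have key : ∀ m k, ∑ i ∈ t, u m i * v k i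
      = (N : ℂ)⁻¹ * (∑ s ∈ t.powerset, tr (X m s) * tr (Y k s))
        + (1/4) * (∑ s ∈ t.powerset, (tr (X m s) / r) * (4 * (Y k s - tr (Y k s)) / r))
        + (1/4) * (∑ s ∈ t.powerset, (4 * (X m s - tr (X m s)) / r) * (Y k s / r)) := by
    intro m k
    have h1 := rad_mul t (u m) (v k)
    have h2 : ∑ i ∈ t, u m i * v k i = (N : ℂ)⁻¹ * ∑ s ∈ t.powerset, X m s * Y k s := by
      rw [h1, hN]; push_cast
      rw [← mul_assoc, inv_mul_cancel₀ (pow_ne_zero _ two_ne_zero), one_mul]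
    rw [h2, mul_sum, mul_sum, mul_sum, mul_sum, ← sum_add_distrib, ← sum_add_distrib]
    refine sum_congr rfl fun s _ => ?_
    rw [← hrc2]
    field_simp
    ring
  have e1 : ∑ m ∈ range M, ∑ k ∈ range M, γ m k * ∑ i ∈ t, u m i * v k i
      = (N : ℂ)⁻¹ * (∑ s ∈ t.powerset, ∑ m ∈ range M, ∑ k ∈ range M,
          γ m k * tr (X m s) * tr (Y k s))
        + (1/4) * (∑ m ∈ range M, ∑ k ∈ range M, γ m k *
          ∑ s ∈ t.powerset, (tr (X m s) / r) * (4 * (Y k s - tr (Y k s)) / r))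
        + (1/4) * (∑ m ∈ range M, ∑ k ∈ range M, γ m k *
          ∑ s ∈ t.powerset, (4 * (X m s - tr (X m s)) / r) * (Y k s / r)) := by
    rw [sum_comm (s := t.powerset)]
    simp_rw [sum_comm (s := t.powerset) (t := range M)]
    rw [mul_sum, mul_sum, mul_sum, ← sum_add_distrib, ← sum_add_distrib]
    refine sum_congr rfl fun m _ => ?_
    rw [mul_sum, mul_sum, mul_sum, ← sum_add_distrib, ← sum_add_distrib]
    refine sum_congr rfl fun k _ => ?_
    rw [key m k]
    have : ∑ s ∈ t.powerset, γ m k * tr (X m s) * tr (Y k s)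
        = γ m k * ∑ s ∈ t.powerset, tr (X m s) * tr (Y k s) := by
      rw [mul_sum]; exact sum_congr rfl fun s _ => by ring
    rw [this]
    ring
  have b1 : ‖(N : ℂ)⁻¹ * (∑ s ∈ t.powerset, ∑ m ∈ range M, ∑ k ∈ range M,
          γ m k * tr (X m s) * tr (Y k s))‖ ≤ 64 * B := by
    rw [norm_mul, norm_inv, Complex.norm_real, Real.norm_of_nonneg hNpos.le,
      inv_mul_le_iff₀ hNpos]
    refine (norm_sum_le _ _).trans ?_
    have : ∀ s ∈ t.powerset, ‖∑ m ∈ range M, ∑ k ∈ range M,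
          γ m k * tr (X m s) * tr (Y k s)‖ ≤ 64 * B := by
      intro s _
      have h := hB (fun m => tr (X m s) / 8) (fun k => tr (Y k s) / 8)
        (fun m => by
          rw [norm_div]; simp only [Complex.norm_ofNat]
          have := norm_tr_le (X m s); linarith)
        (fun k => by
          rw [norm_div]; simp only [Complex.norm_ofNat]
          have := norm_tr_le (Y k s); linarith)
      have e : ∑ m ∈ range M, ∑ k ∈ range M, γ m k * tr (X m s) * tr (Y k s)
          = 64 * ∑ m ∈ range M, ∑ k ∈ range M, γ m k * (tr (X m s) / 8) * (tr (Y k s) / 8) := by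
        rw [mul_sum]
        refine sum_congr rfl fun m _ => ?_
        rw [mul_sum]
        exact sum_congr rfl fun k _ => by ring
      rw [e, norm_mul]
      simp only [Complex.norm_ofNat]
      linarith
    refine (sum_le_sum this).trans ?_
    rw [sum_const, card_powerset, nsmul_eq_mul]
    push_cast
    rw [hN]
  have sm : ∀ w : ι → ℂ, ∑ i ∈ t, ‖w i‖ ^ 2 ≤ 1 → ∑ s ∈ t.powerset, ‖rad t w s / r‖ ^ 2 ≤ 1 := by
    intro w hw
    have : ∑ s ∈ t.powerset, ‖rad t w s / r‖ ^ 2 = N⁻¹ * ∑ s ∈ t.powerset, ‖rad t w s‖ ^ 2 := by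
      rw [mul_sum]
      refine sum_congr rfl fun s _ => ?_
      rw [norm_div, Complex.norm_real, Real.norm_of_nonneg hrpos.le, div_pow, hr2]
      field_simp
    rw [this, second_moment, ← hN, ← mul_assoc, inv_mul_cancel₀ hNpos.ne', one_mul]
    exact hw
  have smt : ∀ w : ι → ℂ, ∑ i ∈ t, ‖w i‖ ^ 2 ≤ 1 →
      ∑ s ∈ t.powerset, ‖tr (rad t w s) / r‖ ^ 2 ≤ 1 := by
    intro w hw
    refine le_trans (sum_le_sum fun s _ => ?_) (sm w hw)
    rw [norm_div, norm_div]
    gcongr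
    exact norm_tr_le' _
  have fm : ∀ w : ι → ℂ, ∑ i ∈ t, ‖w i‖ ^ 2 ≤ 1 →
      ∑ s ∈ t.powerset, ‖4 * (rad t w s - tr (rad t w s)) / r‖ ^ 2 ≤ 1 := by
    intro w hw
    have h4 := fourth_moment t w
    have h0 : 0 ≤ ∑ i ∈ t, ‖w i‖ ^ 2 := sum_nonneg fun _ _ => by positivity
    have h1 : (∑ i ∈ t, ‖w i‖ ^ 2) ^ 2 ≤ 1 := by nlinarith
    have : ∀ s ∈ t.powerset, ‖4 * (rad t w s - tr (rad t w s)) / r‖ ^ 2
        ≤ (1 / (4 * N)) * ‖rad t w s‖ ^ 4 := by
      intro s _
      rw [norm_div, norm_mul, Complex.norm_real, Real.norm_of_nonneg hrpos.le, div_pow, hr2,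
        Complex.norm_ofNat, mul_pow, div_le_iff₀ hNpos]
      have := norm_sub_tr (rad t w s)
      have e : 1 / (4 * N) * ‖rad t w s‖ ^ 4 * N = ‖rad t w s‖ ^ 4 / 4 := by
        field_simp
      rw [e]
      linarith
    refine (sum_le_sum this).trans ?_
    rw [← mul_sum, ← hN] at *
    have : 1 / (4 * N) * ∑ i ∈ t.powerset, ‖rad t w i‖ ^ 4 ≤ 1 / (4 * N) * (3 * N) := by
      refine mul_le_mul_of_nonneg_left (h4.trans ?_) (by positivity)
      nlinarith
    refine this.trans ?_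
    rw [div_mul_eq_mul_div, one_mul, div_le_one (by positivity)]
    linarith
  have b2 := hK (Finset ι) t.powerset (fun m s => tr (X m s) / r)
    (fun k s => 4 * (Y k s - tr (Y k s)) / r) (fun m => smt _ (hu m)) (fun k => fm _ (hv k))
  have b3 := hK (Finset ι) t.powerset (fun m s => 4 * (X m s - tr (X m s)) / r)
    (fun k s => Y k s / r) (fun m => fm _ (hu m)) (fun k => sm _ (hv k))
  rw [e1]
  refine (norm_add_le _ _).trans ?_
  refine (add_le_add_left (norm_add_le _ _) _).trans ?_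
  rw [norm_mul (1/4 : ℂ), norm_mul (1/4 : ℂ)]
  have h14 : ‖(1/4 : ℂ)‖ = 1/4 := by norm_num
  rw [h14]
  linarith

lemma IB.nonneg {M : ℕ} {γ : ℕ → ℕ → ℂ} {B : ℝ} (h : IB M γ B) : 0 ≤ B := by
  simpa using h (fun _ => 0) (fun _ => 0) (by simp) (by simp)

/-- **Grothendieck's inequality** (complex case, with constant `128`). -/
theorem grothendieck {M : ℕ} {γ : ℕ → ℕ → ℂ} {B : ℝ} (hB : IB M γ B) : GT M γ (128 * B) := by
  set K0 := ∑ m ∈ range M, ∑ k ∈ range M, ‖γ m k‖
  have h : ∀ n : ℕ, GT M γ (128 * B + K0 / 2 ^ n) := by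
    intro n
    induction n with
    | zero =>
      intro ι t u v hu hv
      have h1 := GT_trivial M γ ι t u v hu hv
      have := hB.nonneg
      simp only [pow_zero, div_one]
      linarith
    | succ n ih =>
      have := GT_step hB ih
      convert this using 1
      rw [pow_succ]
      ring
  intro ι t u v hu hv
  refine le_of_forall_pos_le_add fun ε hε => ?_
  have hlim : Filter.Tendsto (fun n : ℕ => K0 / 2 ^ n) Filter.atTop (nhds 0) := by
    have := (tendsto_pow_atTop_nhds_zero_of_lt_one (r := (1/2 : ℝ)) (by norm_num)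
      (by norm_num)).const_mul K0
    simpa [div_eq_mul_inv] using this
  obtain ⟨n, hn⟩ := (hlim.eventually (gt_mem_nhds hε)).exists
  exact (h n ι t u v hu hv).trans (by linarith)

end Pool.Agent.Y189.BA
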