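import Mathlib
import Pool.Agent.Y189.BA.GT
set_option autoImplicit false
open Finset

namespace Pool.Agent.Y189.BA

/-- the bilinear form of the section of size `M` -/
noncomputable def bf (M : ℕ) (δ : ℕ → ℕ → ℂ) (x y : ℕ → ℂ) : ℂ :=
  ∑ m ∈ range M, ∑ k ∈ range M, δ m k * x m * y k

lemma two_summing {M : ℕ} {δ : ℕ → ℕ → ℂ} {K : ℝ} (hK : GT M δ K) (hK0 : 0 < K)
    {ι : Type} [Fintype ι] (x y : ι → ℕ → ℂ) (hy : ∀ i k, ‖y i k‖ ≤ 1) {A : ℝ} (hA0 : 0 < A)
    (hA : ∀ m < M, ∑ i, ‖x i m‖ ^ 2 ≤ A) :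
    ∑ i, ‖bf M δ (x i) (y i)‖ ^ 2 ≤ K ^ 2 * A := by
  set S := ∑ i, ‖bf M δ (x i) (y i)‖ ^ 2 with hS
  have hS0 : 0 ≤ S := sum_nonneg fun _ _ => by positivity
  rcases hS0.eq_or_lt with h | hpos
  · rw [← h]; positivity
  set a := Real.sqrt A with ha
  have ha2 : a ^ 2 = A := Real.sq_sqrt hA0.le
  have hapos : 0 < a := Real.sqrt_pos.2 hA0
  set b := Real.sqrt S with hb
  have hb2 : b ^ 2 = S := Real.sq_sqrt hS0
  have hbpos : 0 < b := Real.sqrt_pos.2 hpos
  have h := hK ι univ (fun m i => if m < M then x i m / a else 0)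
    (fun k i => (starRingEnd ℂ) (bf M δ (x i) (y i)) * y i k / b)
    (fun m => by
      by_cases hm : m < M
      · simp only [hm, if_true, norm_div, Complex.norm_real, Real.norm_of_nonneg hapos.le,
          div_pow, ha2]
        rw [← sum_div, div_le_one hA0]
        exact hA m hm
      · simp [hm])
    (fun k => by
      have : ∀ i ∈ (univ : Finset ι), ‖(starRingEnd ℂ) (bf M δ (x i) (y i)) * y i k / b‖ ^ 2
          ≤ ‖bf M δ (x i) (y i)‖ ^ 2 / S := by
        intro i _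
        rw [norm_div, norm_mul, Complex.norm_real, Real.norm_of_nonneg hbpos.le, div_pow, hb2,
          RCLike.norm_conj]
        gcongr
        exact mul_le_of_le_one_right (norm_nonneg _) (hy i k)
      refine (sum_le_sum this).trans ?_
      rw [← sum_div, ← hS, div_self hpos.ne'])
  have e : ∑ m ∈ range M, ∑ k ∈ range M, δ m k * ∑ i,
      (if m < M then x i m / a else 0) * ((starRingEnd ℂ) (bf M δ (x i) (y i)) * y i k / b)
      = ((b / a : ℝ) : ℂ) := by
    have e1 : ∀ m ∈ range M, ∑ k ∈ range M, δ m k * ∑ i,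
      (if m < M then x i m / a else 0) * ((starRingEnd ℂ) (bf M δ (x i) (y i)) * y i k / b)
      = ∑ i, ((starRingEnd ℂ) (bf M δ (x i) (y i)) / (a * b)) *
          ∑ k ∈ range M, δ m k * x i m * y i k := by
      intro m hm
      simp_rw [mul_sum]
      rw [sum_comm]
      refine sum_congr rfl fun i _ => sum_congr rfl fun k _ => ?_
      rw [if_pos (mem_range.1 hm)]
      have : (a : ℂ) ≠ 0 := by exact_mod_cast hapos.ne'
      have : (b : ℂ) ≠ 0 := by exact_mod_cast hbpos.ne'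
      field_simp
    rw [sum_congr rfl e1, sum_comm]
    simp_rw [← mul_sum]
    have e2 : ∀ i, (starRingEnd ℂ) (bf M δ (x i) (y i)) / (a * b) *
        ∑ m ∈ range M, ∑ k ∈ range M, δ m k * x i m * y i k
        = ((‖bf M δ (x i) (y i)‖ ^ 2 / (a * b) : ℝ) : ℂ) := by
      intro i
      have : ∑ m ∈ range M, ∑ k ∈ range M, δ m k * x i m * y i k = bf M δ (x i) (y i) := rfl
      rw [this]
      have h2 := Complex.conj_mul' (bf M δ (x i) (y i))
      push_cast
      rw [← h2]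
      ring
    rw [sum_congr rfl fun i _ => e2 i, ← Complex.ofReal_sum, ← sum_div, ← hS, ← hb2]
    congr 1
    field_simp
  rw [e, Complex.norm_real, Real.norm_of_nonneg (by positivity), div_le_iff₀ hapos] at h
  rw [← hb2, ← ha2, ← mul_pow]
  exact pow_le_pow_left₀ hbpos.le h 2

/-- the cone used in the proof of Pietsch's domination theorem -/
def cone (M : ℕ) (δ : ℕ → ℕ → ℂ) (K : ℝ) : Set (Fin M → ℝ) :=
  {g | ∃ (ι : Type) (_ : Fintype ι) (x y : ι → ℕ → ℂ), (∀ i k, ‖y i k‖ ≤ 1) ∧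
    ∀ s : Fin M, g s = K ^ 2 * ∑ i, ‖x i s‖ ^ 2 - ∑ i, ‖bf M δ (x i) (y i)‖ ^ 2}

lemma bf_smul (M : ℕ) (δ : ℕ → ℕ → ℂ) (c : ℂ) (x y : ℕ → ℂ) :
    bf M δ (fun m => c * x m) y = c * bf M δ x y := by
  unfold bf
  rw [mul_sum]
  refine sum_congr rfl fun m _ => ?_
  rw [mul_sum]
  exact sum_congr rfl fun k _ => by ring

lemma cone_add {M : ℕ} {δ : ℕ → ℕ → ℂ} {K : ℝ} {g g' : Fin M → ℝ} (h : g ∈ cone M δ K)
    (h' : g' ∈ cone M δ K) : g + g' ∈ cone M δ K := by
  obtain ⟨ι, _, x, y, hy, hg⟩ := h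
  obtain ⟨ι', _, x', y', hy', hg'⟩ := h'
  refine ⟨ι ⊕ ι', inferInstance, Sum.elim x x', Sum.elim y y', ?_, ?_⟩
  · rintro (i | i) k
    · exact hy i k
    · exact hy' i k
  · intro s
    simp only [Pi.add_apply, hg s, hg' s, Fintype.sum_sum_type, Sum.elim_inl, Sum.elim_inr]
    ring

lemma cone_smul {M : ℕ} {δ : ℕ → ℕ → ℂ} {K : ℝ} {g : Fin M → ℝ} (h : g ∈ cone M δ K)
    {c : ℝ} (hc : 0 ≤ c) : c • g ∈ cone M δ K := by
  obtain ⟨ι, _, x, y, hy, hg⟩ := h
  refine ⟨ι, inferInstance, fun i m => (Real.sqrt c : ℂ) * x i m, y, hy, ?_⟩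
  intro s
  have h2 : Real.sqrt c ^ 2 = c := Real.sq_sqrt hc
  simp only [Pi.smul_apply, smul_eq_mul, hg s, bf_smul, norm_mul, Complex.norm_real,
    Real.norm_of_nonneg (Real.sqrt_nonneg c), mul_pow, h2, ← mul_sum]
  ring

lemma cone_convex (M : ℕ) (δ : ℕ → ℕ → ℂ) (K : ℝ) : Convex ℝ (cone M δ K) := by
  intro a ha b hb s t hs ht _
  exact cone_add (cone_smul ha hs) (cone_smul hb ht)

lemma cone_disjoint {M : ℕ} {δ : ℕ → ℕ → ℂ} {K : ℝ} (hM : 0 < M) (hK : GT M δ K) (hK0 : 0 < K) :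
    Disjoint {g : Fin M → ℝ | ∀ s, g s < 0} (cone M δ K) := by
  rw [Set.disjoint_left]
  rintro g hg ⟨ι, _, x, y, hy, hgs⟩
  have : Nonempty (Fin M) := ⟨⟨0, hM⟩⟩
  obtain ⟨s0, -, hs0⟩ := Finset.exists_max_image (univ : Finset (Fin M))
    (fun s => ∑ i, ‖x i s‖ ^ 2) univ_nonempty
  set S := ∑ i, ‖bf M δ (x i) (y i)‖ ^ 2 with hS
  set A0 := ∑ i, ‖x i s0‖ ^ 2 with hA0
  have hA0' : 0 ≤ A0 := sum_nonneg fun _ _ => by positivity
  have h1 : K ^ 2 * A0 < S := by
    have := hg s0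
    rw [hgs s0] at this
    linarith
  have hKp : 0 < K ^ 2 := by positivity
  have hSpos : 0 < S := lt_of_le_of_lt (by positivity) h1
  set A := (A0 + S / K ^ 2) / 2 with hA
  have h2 : A0 < S / K ^ 2 := by rw [lt_div_iff₀ hKp]; linarith
  have hApos : 0 < A := by positivity
  have h3 := two_summing hK hK0 x y hy hApos (fun m hm => by
    have := hs0 ⟨m, hm⟩ (mem_univ _)
    simp only at this
    linarith)
  have h4 : K ^ 2 * A < S := by
    have : A < S / K ^ 2 := by rw [hA]; linarith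
    rw [lt_div_iff₀ hKp] at this
    linarith
  linarith

/-- **Pietsch domination** for the operator given by a matrix. -/
theorem pietsch {M : ℕ} {δ : ℕ → ℕ → ℂ} {K : ℝ} (hM : 0 < M) (hK : GT M δ K) (hK0 : 0 < K) :
    ∃ p : Fin M → ℝ, (∀ s, 0 ≤ p s) ∧ ∑ s, p s = 1 ∧ ∀ x y : ℕ → ℂ, (∀ k, ‖y k‖ ≤ 1) →
      ‖bf M δ x y‖ ^ 2 ≤ K ^ 2 * ∑ s, p s * ‖x s‖ ^ 2 := by
  have hconv : Convex ℝ {g : Fin M → ℝ | ∀ s, g s < 0} := by
    intro a ha b hb s t hs ht hst r
    have h1 := ha r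
    have h2 := hb r
    simp only [Pi.add_apply, Pi.smul_apply, smul_eq_mul]
    rcases hs.eq_or_lt with h | h
    · have : t = 1 := by linarith
      rw [← h, this]; linarith
    · nlinarith [mul_neg_of_pos_of_neg h h1, mul_nonpos_of_nonneg_of_nonpos ht h2.le]
  have hopen : IsOpen {g : Fin M → ℝ | ∀ s, g s < 0} := by
    have : {g : Fin M → ℝ | ∀ s, g s < 0} = ⋂ s, {g | g s < 0} := by ext; simp
    rw [this]
    exact isOpen_iInter_of_finite fun s => isOpen_lt (continuous_apply s) continuous_const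
  obtain ⟨f, u, hf1, hf2⟩ := geometric_hahn_banach_open hconv hopen (cone_convex M δ K)
    (cone_disjoint hM hK hK0)
  have hzero : (0 : Fin M → ℝ) ∈ cone M δ K :=
    ⟨Empty, inferInstance, fun i => i.elim, fun i => i.elim, fun i => i.elim, fun s => by simp⟩
  have hu : u ≤ 0 := by simpa using hf2 0 hzero
  have hfc : ∀ b ∈ cone M δ K, 0 ≤ f b := by
    intro b hb
    by_contra hneg
    push Not at hneg
    have h1 : 0 ≤ (u - 1) / f b := div_nonneg_of_nonpos (by linarith) hneg.le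
    have h2 := hf2 _ (cone_smul hb h1)
    rw [map_smul, smul_eq_mul, div_mul_cancel₀ _ hneg.ne] at h2
    linarith
  have hfn : ∀ a : Fin M → ℝ, (∀ s, a s < 0) → f a < 0 := fun a ha => lt_of_lt_of_le (hf1 a ha) hu
  set e : Fin M → (Fin M → ℝ) := fun s => Pi.single s 1 with he
  set one : Fin M → ℝ := fun _ => 1 with hone
  have hone_pos : 0 < f one := by
    have := hfn (-one) (fun s => by simp [hone])
    rw [map_neg] at this
    linarith
  have hes : ∀ s, 0 ≤ f (e s) := by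
    intro s
    refine le_of_forall_pos_le_add fun ε hε => ?_
    have h1 := hfn (-(e s) - (ε / f one) • one) (fun r => by
      simp only [Pi.sub_apply, Pi.neg_apply, Pi.smul_apply, smul_eq_mul, hone, mul_one, he]
      have h2 : 0 < ε / f one := by positivity
      have h3 : 0 ≤ (Pi.single s (1 : ℝ) : Fin M → ℝ) r := by
        by_cases h : r = s
        · subst h; simp
        · simp [h]
      linarith)
    rw [map_sub, map_neg, map_smul, smul_eq_mul, div_mul_cancel₀ _ hone_pos.ne'] at h1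
    linarith
  have hfsum : ∀ g : Fin M → ℝ, f g = ∑ s, g s * f (e s) := by
    intro g
    have : g = ∑ s, g s • e s := by
      ext r
      simp [he, Finset.sum_apply, Pi.single_apply]
    conv_lhs => rw [this]
    rw [map_sum]
    refine sum_congr rfl fun s _ => by rw [map_smul, smul_eq_mul]
  refine ⟨fun s => f (e s) / f one, fun s => div_nonneg (hes s) hone_pos.le, ?_, ?_⟩
  · rw [← sum_div, div_eq_one_iff_eq hone_pos.ne', hfsum one]
    simp [hone]
  · intro x y hy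
    have hmem : (fun s : Fin M => K ^ 2 * ‖x s‖ ^ 2 - ‖bf M δ x y‖ ^ 2) ∈ cone M δ K :=
      ⟨Unit, inferInstance, fun _ => x, fun _ => y, fun _ k => hy k, fun s => by simp⟩
    have h := hfc _ hmem
    rw [hfsum] at h
    have h2 : f one = ∑ s, f (e s) := by rw [hfsum one]; simp [hone]
    have h3 : ∑ s : Fin M, (K ^ 2 * ‖x s‖ ^ 2 - ‖bf M δ x y‖ ^ 2) * f (e s)
        = K ^ 2 * ∑ s : Fin M, f (e s) * ‖x s‖ ^ 2 - ‖bf M δ x y‖ ^ 2 * f one := by
      rw [h2, mul_sum, mul_sum, ← sum_sub_distrib]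
      exact sum_congr rfl fun s _ => by ring
    rw [h3] at h
    have h4 : K ^ 2 * ∑ s : Fin M, f (e s) / f one * ‖x s‖ ^ 2
        = (K ^ 2 * ∑ s : Fin M, f (e s) * ‖x s‖ ^ 2) / f one := by
      rw [mul_div_assoc, sum_div]
      congr 1
      exact sum_congr rfl fun s _ => by ring
    rw [h4, le_div_iff₀ hone_pos]
    linarith

/-- Pietsch domination with strictly positive weights. -/
theorem pietsch' {M : ℕ} {δ : ℕ → ℕ → ℂ} {K : ℝ} (hM : 0 < M) (hK : GT M δ K) (hK0 : 0 < K) :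
    ∃ p : ℕ → ℝ, (∀ s, 0 < p s) ∧ ∑ s ∈ range M, p s = 1 ∧ ∀ x y : ℕ → ℂ, (∀ k, ‖y k‖ ≤ 1) →
      ‖bf M δ x y‖ ^ 2 ≤ 2 * K ^ 2 * ∑ s ∈ range M, p s * ‖x s‖ ^ 2 := by
  obtain ⟨p, hp0, hp1, hp⟩ := pietsch hM hK hK0
  have hMr : (0 : ℝ) < M := by exact_mod_cast hM
  refine ⟨fun s => if h : s < M then (p ⟨s, h⟩ + 1 / M) / 2 else 1, ?_, ?_, ?_⟩
  · intro s
    by_cases h : s < M
    · simp only [h, dif_pos]
      have := hp0 ⟨s, h⟩
      positivity
    · simp [h]
  · rw [Finset.sum_range]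
    simp only [Fin.is_lt, dif_pos, Fin.eta]
    rw [← sum_div, sum_add_distrib, hp1]
    simp only [sum_const, card_univ, Fintype.card_fin, nsmul_eq_mul]
    field_simp
    norm_num
  · intro x y hy
    refine (hp x y hy).trans ?_
    rw [Finset.sum_range]
    simp only [Fin.is_lt, dif_pos, Fin.eta]
    rw [mul_comm 2 (K ^ 2), mul_assoc]
    refine mul_le_mul_of_nonneg_left ?_ (by positivity)
    rw [mul_sum]
    refine sum_le_sum fun s _ => ?_
    have h1 : 0 ≤ ‖x s‖ ^ 2 := by positivity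
    have h2 : (0:ℝ) ≤ 1 / M := by positivity
    nlinarith [mul_nonneg h2 h1]

/-- Tensor products of matrices with bounded injective norm. -/
theorem tensor {M : ℕ} {γ δ : ℕ → ℕ → ℂ} {B B' : ℝ} (hγ : IB M γ B) (hδ : IB M δ B')
    (X Y : ℕ → ℕ → ℂ) (hX : ∀ m n, ‖X m n‖ ≤ 1) (hY : ∀ m n, ‖Y m n‖ ≤ 1) :
    ‖∑ m ∈ range M, ∑ k ∈ range M, γ m k * bf M δ (X m) (Y k)‖ ≤ 32768 * (B * B') := by
  rcases Nat.eq_zero_or_pos M with rfl | hM
  · have := mul_nonneg hγ.nonneg hδ.nonneg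
    simp only [range_zero, sum_empty, norm_zero]
    positivity
  have hG := grothendieck hγ
  suffices h : ∀ K : ℝ, 128 * B' < K →
      ‖∑ m ∈ range M, ∑ k ∈ range M, γ m k * bf M δ (X m) (Y k)‖ ≤ 2 * K * (128 * B) by
    have hlim : Filter.Tendsto (fun K : ℝ => 2 * K * (128 * B))
        (nhdsWithin (128 * B') (Set.Ioi (128 * B')))
        (nhds (2 * (128 * B') * (128 * B))) := by
      refine Filter.Tendsto.mono_left ?_ nhdsWithin_le_nhds
      have : Continuous fun K : ℝ => 2 * K * (128 * B) := by fun_prop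
      exact this.tendsto _
    have := ge_of_tendsto hlim (Filter.eventually_of_mem self_mem_nhdsWithin fun K hK => h K hK)
    refine this.trans (le_of_eq (by ring))
  intro K hKB
  have hK0 : 0 < K := lt_of_le_of_lt (by have := hδ.nonneg; positivity) hKB
  have hK : GT M δ K := fun ι t u v hu hv => (grothendieck hδ ι t u v hu hv).trans hKB.le
  obtain ⟨p, hp0, hp1, hp⟩ := pietsch' hM hK hK0
  set D : ℕ → ℕ → ℂ := fun k s => ∑ t ∈ range M, δ s t * Y k t with hD
  have hbf : ∀ x k, bf M δ x (Y k) = ∑ s ∈ range M, x s * D k s := by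
    intro x k
    unfold bf
    refine sum_congr rfl fun s _ => ?_
    rw [hD, mul_sum]
    exact sum_congr rfl fun t _ => by ring
  have hQ : ∀ k, ∑ s ∈ range M, ‖D k s‖ ^ 2 / p s ≤ 2 * K ^ 2 := by
    intro k
    set Q := ∑ s ∈ range M, ‖D k s‖ ^ 2 / p s with hQdef
    have hQ0 : 0 ≤ Q := sum_nonneg fun s _ => div_nonneg (by positivity) (hp0 s).le
    have h1 := hp (fun s => (starRingEnd ℂ) (D k s) / p s) (Y k) (hY k)
    have e1 : bf M δ (fun s => (starRingEnd ℂ) (D k s) / p s) (Y k) = (Q : ℂ) := by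
      rw [hbf, hQdef]
      push_cast
      refine sum_congr rfl fun s _ => ?_
      rw [div_mul_eq_mul_div, Complex.conj_mul']
    have e2 : ∑ s ∈ range M, p s * ‖(starRingEnd ℂ) (D k s) / p s‖ ^ 2 = Q := by
      rw [hQdef]
      refine sum_congr rfl fun s _ => ?_
      rw [norm_div, RCLike.norm_conj, Complex.norm_real, Real.norm_of_nonneg (hp0 s).le, div_pow]
      have := (hp0 s).ne'
      field_simp
    rw [e1, e2, Complex.norm_real, Real.norm_of_nonneg hQ0, sq] at h1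
    rcases hQ0.eq_or_lt with h | h
    · rw [← h]; positivity
    · exact le_of_mul_le_mul_right h1 h
  have h := hG ℕ (range M) (fun m s => (Real.sqrt (p s) : ℂ) * X m s)
    (fun k s => D k s / (Real.sqrt (p s) : ℂ) / (2 * K))
    (fun m => by
      rw [← hp1]
      refine sum_le_sum fun s _ => ?_
      rw [norm_mul, Complex.norm_real, Real.norm_of_nonneg (Real.sqrt_nonneg _), mul_pow,
        Real.sq_sqrt (hp0 s).le]
      have h1 := hX m s
      have h2 : ‖X m s‖ ^ 2 ≤ 1 := pow_le_one₀ (norm_nonneg _) h1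
      exact mul_le_of_le_one_right (hp0 s).le h2)
    (fun k => by
      have : ∀ s ∈ range M, ‖D k s / (Real.sqrt (p s) : ℂ) / (2 * K)‖ ^ 2
          = (‖D k s‖ ^ 2 / p s) / (4 * K ^ 2) := by
        intro s _
        rw [norm_div, norm_div, norm_mul, Complex.norm_real, Complex.norm_real,
          Real.norm_of_nonneg (Real.sqrt_nonneg _), Real.norm_of_nonneg hK0.le, div_pow, div_pow,
          Real.sq_sqrt (hp0 s).le, mul_pow, Complex.norm_ofNat]
        norm_num
      rw [sum_congr rfl this, ← sum_div, div_le_one (by positivity)]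
      have := hQ k
      nlinarith [sq_nonneg K])
  have e : ∑ m ∈ range M, ∑ k ∈ range M, γ m k * bf M δ (X m) (Y k)
      = (2 * K : ℝ) * ∑ m ∈ range M, ∑ k ∈ range M, γ m k * ∑ s ∈ range M,
        (Real.sqrt (p s) : ℂ) * X m s * (D k s / (Real.sqrt (p s) : ℂ) / (2 * K)) := by
    rw [mul_sum]
    refine sum_congr rfl fun m _ => ?_
    rw [mul_sum]
    refine sum_congr rfl fun k _ => ?_
    rw [hbf, ← mul_assoc, mul_comm ((2 * K : ℝ) : ℂ) (γ m k), mul_assoc]
    congr 1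
    rw [mul_sum]
    refine sum_congr rfl fun s _ => ?_
    have h1 : (Real.sqrt (p s) : ℂ) ≠ 0 := by exact_mod_cast (Real.sqrt_pos.2 (hp0 s)).ne'
    have h2 : (K : ℂ) ≠ 0 := by exact_mod_cast hK0.ne'
    push_cast
    field_simp
  rw [e, norm_mul, Complex.norm_real, Real.norm_of_nonneg (by positivity)]
  exact mul_le_mul_of_nonneg_left h (by positivity)

end Pool.Agent.Y189.BA
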